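import Mathlib
import Pool.Agent.H923_Alg.Core

/-!
An upper bound for the chromatic number of planes over subfields of the real numbers.
-/

set_option autoImplicit false

namespace Pool.Agent.Results.MP_8b8716_co.FourBound

open Pool.Agent.Results.MP_8b8716_co.ThreeValue Pool.Agent.H923_Alg

/-- If a subfield `F` of the real numbers has a place with residue field of `2`, `4`, `7` or `8`
elements at which `F(i)/F` is unramified and inert, then the unit-distance graph of `F²` has
chromatic number at most `4`. -/
theorem result (F : IntermediateField ℚ ℝ)
    (h : ∃ q ∈ ({2, 4, 7, 8} : Finset ℕ), HasInertPlace F q) :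
    (unitDistGraph F).chromaticNumber ≤ 4 := by
  obtain ⟨q, hq, h⟩ := h
  exact_mod_cast (colorable_four F hq h).chromaticNumber_le

end Pool.Agent.Results.MP_8b8716_co.FourBound
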