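import Mathlib
import Pool.Agent.H923_Alg.Search
import Pool.Agent.Results.MP_8b8716_co.ThreeValue

/-!
Planes over fields containing the square root of `11` are not `3`-colourable.
-/

set_option autoImplicit false

namespace Pool.Agent.Results.MP_8b8716_co.RootEleven

open Pool.Agent.Results.MP_8b8716_co.ThreeValue Pool.Agent.H923_Alg

section

variable {F : IntermediateField ℚ ℝ}

/-- The point of `F²` with given coordinates. -/
noncomputable def emb (r : F) (P : ℤ × ℤ × ℤ × ℤ) : F × F :=
  (((P.1 : F) + (P.2.2.1 : F) * r) / 10, ((P.2.1 : F) + (P.2.2.2 : F) * r) / 10)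

lemma adj_emb (r : F) (hr : r ^ 2 = 11) (p : F × F) (P Q : ℤ × ℤ × ℤ × ℤ) (h : unitOk P Q = true) :
    (unitDistGraph F).Adj (p + emb r P) (p + emb r Q) := by
  obtain ⟨a, b, c, e⟩ := P
  obtain ⟨a', b', c', e'⟩ := Q
  have h' := of_decide_eq_true h
  obtain ⟨h1, h2⟩ := h'
  simp only at h1 h2
  have h1' : ((a : F) - a') ^ 2 + ((b : F) - b') ^ 2 + 11 * (((c : F) - c') ^ 2 + ((e : F) - e') ^ 2) = 100 := by
    exact_mod_cast congrArg (Int.cast : ℤ → F) h1
  have h2' : ((a : F) - a') * ((c : F) - c') + ((b : F) - b') * ((e : F) - e') = 0 := by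
    exact_mod_cast congrArg (Int.cast : ℤ → F) h2
  show ((p + emb r (a, b, c, e)).1 - (p + emb r (a', b', c', e')).1) ^ 2
    + ((p + emb r (a, b, c, e)).2 - (p + emb r (a', b', c', e')).2) ^ 2 = 1
  simp only [emb, Prod.fst_add, Prod.snd_add]
  linear_combination (1 / 100) * h1' + (r / 50) * h2'
    + ((((c : F) - c') ^ 2 + ((e : F) - e') ^ 2) / 100) * hr

/-- `q` is a period of every proper `3`-colouring of `F²`. -/
def Per (q : F × F) : Prop :=
  ∀ (C : (unitDistGraph F).Coloring (Fin 3)) (p : F × F), C p = C (p + q)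

lemma exists_perm : ∀ a b : Fin 3, a ≠ b → ∃ σ : Equiv.Perm (Fin 3), σ a = 0 ∧ σ b = 1 := by
  decide

lemma pts_zero : pts.getD 238 (0, 0, 0, 0) = (0, 0, 0, 0) := by decide +kernel

lemma pts_v : pts.getD 239 (0, 0, 0, 0) = (-9, -6, 0, 3) := by decide +kernel

lemma per_start (r : F) (hr : r ^ 2 = 11) : Per ((-9 / 10, (-6 + 3 * r) / 10) : F × F) := by
  intro C p
  by_contra hne
  obtain ⟨σ, h0, h1⟩ := exists_perm _ _ hne
  set col : ℕ → Fin 3 := fun i => σ (C (p + emb r (pts.getD i (0, 0, 0, 0)))) with hcoldef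
  have hcol : ∀ x y, (nbr.getD x 0).testBit y = true → col x ≠ col y := by
    intro x y h heq
    have h2 := nbr_spec x y h
    exact C.valid (adj_emb r hr p _ _ h2) (σ.injective heq)
  have e0 : emb r (0, 0, 0, 0) = 0 := by
    simp [emb]
  have e1 : emb r (-9, -6, 0, 3) = ((-9 / 10, (-6 + 3 * r) / 10) : F × F) := by
    simp [emb]
  have hc0 : col 238 = 0 := by
    simp only [hcoldef]
    rw [pts_zero, e0, add_zero]
    exact h0
  have hc1 : col 239 = 1 := by
    simp only [hcoldef]
    rw [pts_v, e1]
    exact h1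
  have hsat : ∃ g ∈ [((2 ^ 238, 2 ^ 239, 0) : ℕ × ℕ × ℕ)], Sat col g := by
    refine ⟨_, List.mem_singleton.mpr rfl, ?_, ?_, ?_⟩
    · intro i hi
      have hi' : (2 ^ 238).testBit i = true := hi
      rw [Nat.testBit_two_pow] at hi'
      have : 238 = i := by simpa using hi'
      rw [← this]; exact hc0
    · intro i hi
      have hi' : (2 ^ 239).testBit i = true := hi
      rw [Nat.testBit_two_pow] at hi'
      have : 239 = i := by simpa using hi'
      rw [← this]; exact hc1
    · intro i hi
      simp at hi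
  obtain ⟨g, hg, -⟩ := foldl_sat hcol tree _ hsat
  have hemp := List.isEmpty_iff.mp search_empty
  rw [hemp] at hg
  simp at hg

/-- Multiplication of complex numbers with real and imaginary parts in `F`. -/
noncomputable def rot (e q : F × F) : F × F := (e.1 * q.1 - e.2 * q.2, e.1 * q.2 + e.2 * q.1)

lemma Per.rot {q : F × F} (h : Per q) (e : F × F) (he : e.1 ^ 2 + e.2 ^ 2 = 1) :
    Per (RootEleven.rot e q) := by
  intro C p
  let C' : (unitDistGraph F).Coloring (Fin 3) :=
    SimpleGraph.Coloring.mk (fun x => C (RootEleven.rot e x)) (by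
      intro x y hxy
      apply C.valid
      have hxy' : (x.1 - y.1) ^ 2 + (x.2 - y.2) ^ 2 = 1 := hxy
      show ((RootEleven.rot e x).1 - (RootEleven.rot e y).1) ^ 2
        + ((RootEleven.rot e x).2 - (RootEleven.rot e y).2) ^ 2 = 1
      simp only [RootEleven.rot]
      linear_combination ((x.1 - y.1) ^ 2 + (x.2 - y.2) ^ 2) * he + hxy')
  have h1 := h C' (RootEleven.rot (e.1, -e.2) p)
  have h2 : C (RootEleven.rot e (RootEleven.rot (e.1, -e.2) p))
      = C (RootEleven.rot e (RootEleven.rot (e.1, -e.2) p + q)) := h1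
  have e1 : RootEleven.rot e (RootEleven.rot (e.1, -e.2) p) = p := by
    ext1
    · simp only [RootEleven.rot]
      linear_combination p.1 * he
    · simp only [RootEleven.rot]
      linear_combination p.2 * he
  have e2 : RootEleven.rot e (RootEleven.rot (e.1, -e.2) p + q) = p + RootEleven.rot e q := by
    ext1
    · simp only [RootEleven.rot, Prod.fst_add, Prod.snd_add]
      linear_combination p.1 * he
    · simp only [RootEleven.rot, Prod.fst_add, Prod.snd_add]
      linear_combination p.2 * he
  rw [e1, e2] at h2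
  exact h2

lemma Per.add {q q' : F × F} (h : Per q) (h' : Per q') : Per (q + q') := by
  intro C p
  rw [h C p, h' C (p + q), add_assoc]

lemma Per.neg {q : F × F} (h : Per q) : Per (-q) := by
  intro C p
  have := h C (p + -q)
  rw [neg_add_cancel_right] at this
  exact this.symm

lemma Per.congr {q q' : F × F} (h : Per q) (e1 : q.1 = q'.1) (e2 : q.2 = q'.2) : Per q' := by
  have : q = q' := Prod.ext e1 e2
  rwa [this] at h

/-- Multiplication by a scalar. -/
noncomputable def sc (t : F) (q : F × F) : F × F := (t * q.1, t * q.2)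

lemma Per.nat {q : F × F} (h : Per q) (n : ℕ) : Per (sc (n : F) q) := by
  induction n with
  | zero =>
    refine (h.add h.neg).congr ?_ ?_ <;> simp [sc]
  | succ n ih =>
    refine (ih.add h).congr ?_ ?_ <;> simp [sc] <;> ring

lemma Per.five {q : F × F} (r : F) (hr : r ^ 2 = 11) (h : Per q) : Per (sc (1 / 5) q) := by
  have h1 := h.rot (1 / 10, 3 * r / 10) (by simp only; linear_combination (9 / 100) * hr)
  have h2 := h.rot (1 / 10, -(3 * r / 10)) (by simp only; linear_combination (9 / 100) * hr)
  refine (h1.add h2).congr ?_ ?_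
  · simp only [RootEleven.rot, sc, Prod.fst_add]; ring
  · simp only [RootEleven.rot, sc, Prod.snd_add]; ring

lemma Per.three {q : F × F} (r : F) (hr : r ^ 2 = 11) (h : Per q) : Per (sc (1 / 3) q) := by
  have h0 := h.five r hr
  have h1 := h0.rot (5 / 6, r / 6) (by simp only; linear_combination (1 / 36) * hr)
  have h2 := h0.rot (5 / 6, -(r / 6)) (by simp only; linear_combination (1 / 36) * hr)
  refine (h1.add h2).congr ?_ ?_
  · simp only [RootEleven.rot, sc, Prod.fst_add]; ring
  · simp only [RootEleven.rot, sc, Prod.snd_add]; ring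

/-- Multiplication by `√11 · i`. -/
lemma Per.root {q : F × F} (r : F) (hr : r ^ 2 = 11) (h : Per q) : Per (-(r * q.2), r * q.1) := by
  have h1 := h.rot (1 / 10, 3 * r / 10) (by simp only; linear_combination (9 / 100) * hr)
  have h2 := h.rot (1 / 10, -(3 * r / 10)) (by simp only; linear_combination (9 / 100) * hr)
  have h3 := ((h1.add h2.neg).nat 5).three r hr
  refine h3.congr ?_ ?_
  · simp only [RootEleven.rot, sc, Prod.fst_add, Prod.fst_neg]; push_cast; ring
  · simp only [RootEleven.rot, sc, Prod.snd_add, Prod.snd_neg]; push_cast; ring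

lemma per_one (r : F) (hr : r ^ 2 = 11) : Per ((1, 0) : F × F) := by
  have hv := per_start r hr
  have hq := (hv.five r hr).three r hr
  have hA := (hq.nat 9).neg
  have hB := ((hq.root r hr).nat 2).neg
  have hC := ((hq.rot (1 / 10, 3 * r / 10) (by simp only; linear_combination (9 / 100) * hr)).rot (0, 1)
    (by simp)).nat 5
  refine ((hA.add hB).add hC).congr ?_ ?_
  · simp only [RootEleven.rot, sc, Prod.fst_add, Prod.fst_neg]
    push_cast
    linear_combination (1 / 25) * hr
  · simp only [RootEleven.rot, sc, Prod.snd_add, Prod.snd_neg]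
    push_cast
    linear_combination (-(3 / 100)) * hr

lemma not_three (r : F) (hr : r ^ 2 = 11) : ¬ (unitDistGraph F).Colorable 3 := by
  rintro ⟨C⟩
  have h1 := per_one r hr C 0
  have h2 : (unitDistGraph F).Adj 0 (0 + (1, 0)) := by
    show (((0 : F × F)).1 - ((0 : F × F) + (1, 0)).1) ^ 2 + (((0 : F × F)).2 - ((0 : F × F) + (1, 0)).2) ^ 2 = 1
    simp
  exact C.valid h2 h1

end

/-- If a subfield `F` of the real numbers contains `√11`, then the unit-distance graph of `F²` has
chromatic number at least `4`. -/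
theorem result (F : IntermediateField ℚ ℝ) (h11 : Real.sqrt 11 ∈ F) :
    4 ≤ (unitDistGraph F).chromaticNumber := by
  have e11 : (⟨Real.sqrt 11, h11⟩ : F) ^ 2 = 11 := by
    apply Subtype.ext
    show Real.sqrt 11 ^ 2 = ((11 : F) : ℝ)
    rw [Real.sq_sqrt (by norm_num)]
    norm_cast
  by_contra hlt
  rw [not_le] at hlt
  apply not_three _ e11
  rw [← SimpleGraph.chromaticNumber_le_iff_colorable]
  rw [show (4 : ℕ∞) = 3 + 1 by norm_num] at hlt
  exact_mod_cast Order.le_of_lt_add_one hlt

end Pool.Agent.Results.MP_8b8716_co.RootEleven
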