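import Mathlib
import Pool.Agent.Results.MP_8b8716_co.ThreeValue

/-!
Which planes over real algebraic fields have chromatic number two.
-/

set_option autoImplicit false

namespace Pool.Agent.Results.MP_8b8716_co.TwoIff

open Pool.Agent.Results.MP_8b8716_co.ThreeValue

/-- For every real algebraic field `F`, the unit-distance graph of `F²` has chromatic number `2`
if and only if `F` has no algebraic integer `a` with `(a² + 1) / 4` an algebraic integer. -/
theorem result (F : IntermediateField ℚ ℝ) (hF : Algebra.IsAlgebraic ℚ F) :
    (unitDistGraph F).chromaticNumber = 2 ↔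
      ¬ ∃ a : F, IsIntegral ℤ a ∧ IsIntegral ℤ ((a ^ 2 + 1) / 4) := by
  constructor
  · rintro h ⟨a, ha, hb⟩
    apply not_two_colorable_of F a ha hb
    rw [← SimpleGraph.chromaticNumber_le_iff_colorable, h]
    norm_num
  · intro h
    apply le_antisymm
    · exact SimpleGraph.chromaticNumber_le_iff_colorable.mpr (two_colorable_of_no F hF h)
    · have : (unitDistGraph F).Adj (0, 0) (1, 0) := by
        show ((0 : F) - 1) ^ 2 + ((0 : F) - 0) ^ 2 = 1
        ring
      exact SimpleGraph.two_le_chromaticNumber_of_adj this

end Pool.Agent.Results.MP_8b8716_co.TwoIff
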